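import Mathlib
import Pool.Agent.TH964.FC.Low
import Pool.Agent.TH964.FC.Moment

set_option autoImplicit false

/-!
The moments of the coding radius of finitary factor of iid proper 3-colourings of `ℤ^d`, `d ≥ 2`:
the critical exponent is `1`, and it is not attained.
-/

namespace Pool.Agent.Results.MP_69ceda_pr.AlphaStarEqOne

open MeasureTheory Pool.Agent.TH964.FC
open scoped ENNReal

/-- For every `d ≥ 2` the admissible exponents are exactly those in `(0, 1)`, so that the critical
exponent is `1` and is not attained. Moreover one colouring, which commutes with all translations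
everywhere, has finite moments of all orders `α < 1`; and for every label space and every
finitary factor of iid 3-colouring, the coding radius `R` satisfies
`P (R ≥ r + 1) ≥ 1 / (1600 (r + 1))` for all `r`, and its moments of orders `α ≥ 1` are infinite. -/
theorem result (d : ℕ) (hd : 2 ≤ d) :
    {α : ℝ | Admissible d α} = Set.Ioo 0 1 ∧
    alphaStar d = 1 ∧
    (∃ F : (Site d → unitInterval) → (Site d → Fin 3),
      IsFfiidColouring (volume : Measure unitInterval) F ∧
      (∀ (a : Site d) (y : Site d → unitInterval), F (shift a y) = shift a (F y)) ∧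
      ∀ α : ℝ, 0 < α → α < 1 → FiniteMoment (volume : Measure unitInterval) F α) ∧
    (∀ (T : Type) [MeasurableSpace T] (ν : Measure T) [IsProbabilityMeasure ν]
      (F : (Site d → T) → (Site d → Fin 3)), IsFfiidColouring ν F →
      (∀ r : ℕ, ∃ B : Set (Site d → T), MeasurableSet B ∧
        (∀ ω ∈ B, ((r + 1 : ℕ) : ℕ∞) ≤ codingRadius F ω) ∧
        (1 : ℝ≥0∞) / (1600 * (r + 1)) ≤ (iidLaw d ν) B) ∧
      ∀ α : ℝ, 1 ≤ α →
        ∫⁻ ω, ((codingRadius F ω : ℕ∞) : ℝ≥0∞) ^ α ∂(iidLaw d ν) = ⊤) := by
  have h1 : {α : ℝ | Admissible d α} = Set.Ioo 0 1 := by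
    ext α
    simp only [Set.mem_ofPred_eq, Set.mem_Ioo]
    constructor
    · rintro ⟨h0, F, hF, g, _, hle, hfin⟩
      refine ⟨h0, ?_⟩
      by_contra hcon
      push Not at hcon
      apply hfin
      rw [eq_top_iff, ← lintegral_top (volume : Measure unitInterval) hd hF hcon]
      exact lintegral_mono hle
    · rintro ⟨h0, h1⟩
      exact ⟨h0, Fcol, Fcol_isFfiid, Fcol_moment (by omega) h0 h1⟩
  refine ⟨h1, ?_, ⟨Fcol, Fcol_isFfiid, Fcol_shift, fun α h0 h1 => Fcol_moment (by omega) h0 h1⟩,
    fun T _ ν _ F hF => ⟨fun r => tail_radius ν hd hF r, fun α hα => lintegral_top ν hd hF hα⟩⟩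
  unfold alphaStar
  rw [h1]
  exact csSup_Ioo (by norm_num)

end Pool.Agent.Results.MP_69ceda_pr.AlphaStarEqOne
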